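import Mathlib

namespace Pool.Agent.Results.MP_95765a_co.AllDigraphs

/-- `f` is a set-indexer of the digraph with arc relation `A`: both the vertex function `f` and
the induced arc function `(u, v) ↦ f u \ f v` (on the arcs of the digraph) are injective. -/
def IsSetIndexer {V X : Type*} (A : V → V → Prop) (f : V → Set X) : Prop :=
  Function.Injective f ∧
    ∀ u v u' v' : V, A u v → A u' v' → f u \ f v = f u' \ f v' → u = u' ∧ v = v'

/-- `f` is arc-binding: `|f u \ f v| < |f v|` for every arc `(u, v)`. -/
def IsArcBinding {V X : Type*} (A : V → V → Prop) (f : V → Set X) : Prop :=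
  ∀ u v : V, A u v → (f u \ f v).ncard < (f v).ncard

/-- `f` attains equality in the bound `|f u \ f v| ≤ min {|f u|, |f v| - 1}` on every arc. -/
def AttainsBound {V X : Type*} (A : V → V → Prop) (f : V → Set X) : Prop :=
  ∀ u v : V, A u v → (f u \ f v).ncard = min (f u).ncard ((f v).ncard - 1)

open Classical in
/-- the element of the ground set attached to the ordered pair `(v, u)`: shared by `v` and `u`
if these are adjacent, private to `v` otherwise -/
noncomputable def elt {V : Type*} (A : V → V → Prop) (v u : V) : Option (Sym2 V ⊕ V × V) :=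
  if A v u ∨ A u v then some (Sum.inl s(v, u)) else some (Sum.inr (v, u))

lemma elt_inj {V : Type*} (A : V → V → Prop) (v : V) : Function.Injective (elt A v) := by
  intro a b h
  unfold elt at h
  split_ifs at h
  · have h' : a = b ∨ v = b ∧ a = v := by simpa using h
    rcases h' with h | ⟨h, h'⟩
    · exact h
    · exact h'.trans h
  · simp at h
  · simp at h
  · simpa using h

/-- **Every digraph admits an extremal arc-binding set-indexer.** For every finite digraph
without loops and parallel arcs (vertex type `V`, arc relation `A`) there are a finite nonempty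
ground set `X` and an arc-binding set-indexer `f : V → 2^X` with
`|f u \ f v| = min {|f u|, |f v| - 1}` for every arc `(u, v)`. -/
theorem result.{u} (V : Type u) [Finite V] (A : V → V → Prop) (hA : ∀ v, ¬ A v v) :
    ∃ (X : Type u) (_ : Finite X) (_ : Nonempty X) (f : V → Set X),
      IsSetIndexer A f ∧ IsArcBinding A f ∧ AttainsBound A f := by
  classical
  refine ⟨Option (Sym2 V ⊕ V × V), inferInstance, inferInstance, fun v => Set.range (elt A v), ?_⟩
  have priv : ∀ u v : V, elt A u u ∈ Set.range (elt A v) → u = v := by
    rintro u v ⟨w, hw⟩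
    unfold elt at hw
    have huu : ¬ (A u u ∨ A u u) := by simp [hA]
    rw [if_neg huu] at hw
    split_ifs at hw
    · simp at hw
    · simp at hw
      exact hw.1.symm
  have mem : ∀ u v w : V, u ≠ v → (A u v ∨ A v u) →
      (elt A u w ∈ Set.range (elt A v) ↔ w = v) := by
    intro u v w huv had
    constructor
    · rintro ⟨x, hx⟩
      unfold elt at hx
      split_ifs at hx
      · simp only [Option.some.injEq, Sum.inl.injEq, Sym2.eq_iff] at hx
        rcases hx with h | h
        · exact absurd h.1.symm huv
        · exact h.1.symm
      · simp at hx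
      · simp at hx
      · simp at hx
        exact absurd hx.1.symm huv
    · rintro rfl
      refine ⟨u, ?_⟩
      unfold elt
      rw [if_pos had, if_pos had.symm, Sym2.eq_swap]
  have diff : ∀ u v : V, A u v →
      Set.range (elt A u) \ Set.range (elt A v) = Set.range (elt A u) \ {elt A u v} := by
    intro u v h
    have huv : u ≠ v := by rintro rfl; exact hA u h
    ext x
    constructor
    · rintro ⟨⟨w, rfl⟩, hx⟩
      refine ⟨⟨w, rfl⟩, ?_⟩
      rw [Set.mem_singleton_iff]
      intro k
      have := elt_inj A u k
      exact hx ((mem u v w huv (Or.inl h)).2 this)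
    · rintro ⟨⟨w, rfl⟩, hx⟩
      refine ⟨⟨w, rfl⟩, ?_⟩
      intro k
      exact hx (by rw [(mem u v w huv (Or.inl h)).1 k]; rfl)
  have card : ∀ v : V, (Set.range (elt A v)).ncard = Nat.card V := by
    intro v
    rw [← Set.image_univ, Set.ncard_image_of_injective _ (elt_inj A v), Set.ncard_univ]
  have dcard : ∀ u v : V, A u v →
      (Set.range (elt A u) \ Set.range (elt A v)).ncard = Nat.card V - 1 := by
    intro u v h
    rw [diff u v h, Set.ncard_sdiff_singleton_of_mem (Set.mem_range_self v), card]
  refine ⟨⟨?_, ?_⟩, ?_, ?_⟩
  · intro u v h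
    apply priv
    have : elt A u u ∈ (fun v => Set.range (elt A v)) u := ⟨u, rfl⟩
    rw [h] at this
    exact this
  · intro u v u' v' h h' e
    have huv : u ≠ v := by rintro rfl; exact hA u h
    simp only at e
    rw [diff u v h, diff u' v' h'] at e
    have hu : u = u' := by
      apply priv
      have : elt A u u ∈ Set.range (elt A u) \ {elt A u v} := by
        refine ⟨⟨u, rfl⟩, ?_⟩
        intro k
        exact huv (elt_inj A u k)
      rw [e] at this
      exact this.1
    subst hu
    refine ⟨rfl, ?_⟩
    by_contra hne
    have : elt A u v ∈ Set.range (elt A u) \ {elt A u v'} := by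
      refine ⟨⟨v, rfl⟩, ?_⟩
      intro k
      exact hne (elt_inj A u k)
    rw [← e] at this
    exact this.2 rfl
  · intro u v h
    have : Nonempty V := ⟨u⟩
    have hp : 0 < Nat.card V := Nat.card_pos
    show (Set.range (elt A u) \ Set.range (elt A v)).ncard < (Set.range (elt A v)).ncard
    rw [dcard u v h, card]
    omega
  · intro u v h
    show (Set.range (elt A u) \ Set.range (elt A v)).ncard
      = min (Set.range (elt A u)).ncard ((Set.range (elt A v)).ncard - 1)
    rw [dcard u v h, card, card]
    omega

end Pool.Agent.Results.MP_95765a_co.AllDigraphs
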